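import Pool.Agent.Helper47_BS.Stmts

/-! # BS squad, module BIRK: pointwise ergodic theorem for bounded functions -/

set_option autoImplicit false
set_option linter.unusedSectionVars false
set_option linter.deprecated false

namespace Pool.Agent.BS.H45

open Function Filter MeasureTheory Topology

section Maximal

variable {Ω : Type} [MeasurableSpace Ω]

/-- `Mx N x = max_{0 ≤ n ≤ N} S_n g x` -/
noncomputable def Mx (T : Ω → Ω) (g : Ω → ℝ) : ℕ → Ω → ℝ
  | 0, _ => 0
  | N + 1, x => max 0 (g x + Mx T g N (T x))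

theorem Mx_nonneg (T : Ω → Ω) (g : Ω → ℝ) (N : ℕ) (x : Ω) : 0 ≤ Mx T g N x := by
  cases N with
  | zero => exact le_refl _
  | succ N => exact le_max_left _ _

theorem Mx_mono (T : Ω → Ω) (g : Ω → ℝ) (N : ℕ) : ∀ x, Mx T g N x ≤ Mx T g (N + 1) x := by
  induction N with
  | zero => intro x; exact Mx_nonneg T g 1 x
  | succ N ih =>
    intro x
    show max 0 (g x + Mx T g N (T x)) ≤ max 0 (g x + Mx T g (N + 1) (T x))
    have := ih (T x)
    exact max_le_max (le_refl _) (by linarith)

theorem le_Mx (T : Ω → Ω) (g : Ω → ℝ) (N : ℕ) :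
    ∀ x, birkhoffSum T g N x ≤ Mx T g N x := by
  induction N with
  | zero => intro x; simp [Mx]
  | succ N ih =>
    intro x
    rw [birkhoffSum_succ']
    have := ih (T x)
    show _ ≤ max 0 (g x + Mx T g N (T x))
    exact le_trans (by linarith) (le_max_right _ _)

theorem Mx_meas {T : Ω → Ω} {g : Ω → ℝ} (hT : Measurable T) (hg : Measurable g) (N : ℕ) :
    Measurable (Mx T g N) := by
  induction N with
  | zero => exact measurable_const
  | succ N ih =>
    show Measurable (fun x => max 0 (g x + Mx T g N (T x)))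
    exact measurable_const.max (hg.add (ih.comp hT))

theorem Mx_bdd {T : Ω → Ω} {g : Ω → ℝ} {C : ℝ} (hC : 0 ≤ C) (hg : ∀ x, |g x| ≤ C) (N : ℕ) :
    ∀ x, |Mx T g N x| ≤ N * C := by
  induction N with
  | zero => intro x; simp [Mx]
  | succ N ih =>
    intro x
    rw [abs_of_nonneg (Mx_nonneg T g _ x)]
    show max 0 (g x + Mx T g N (T x)) ≤ _
    have h1 := abs_le.1 (hg x)
    have h2 := abs_le.1 (ih (T x))
    push_cast
    refine max_le (by positivity) ?_
    nlinarith [h1.2, h2.2]

theorem integrable_of_bdd {μ : Measure Ω} [IsFiniteMeasure μ] {g : Ω → ℝ} (hg : Measurable g)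
    {C : ℝ} (hb : ∀ x, |g x| ≤ C) : Integrable g μ :=
  Integrable.of_bound hg.aestronglyMeasurable C (Eventually.of_forall hb)

/-- maximal ergodic inequality -/
theorem max_erg {μ : Measure Ω} [IsProbabilityMeasure μ] {T : Ω → Ω}
    (hT : MeasurePreserving T μ μ) {g : Ω → ℝ} (hg : Measurable g) {C : ℝ} (hC : 0 ≤ C)
    (hb : ∀ x, |g x| ≤ C) (N : ℕ) :
    0 ≤ ∫ x in {x | 0 < Mx T g N x}, g x ∂μ := by
  set M := Mx T g N with hM
  have hMm : Measurable M := Mx_meas hT.measurable hg N
  have hMi : Integrable M μ := integrable_of_bdd hMm (Mx_bdd hC hb N)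
  have hMTi : Integrable (fun x => M (T x)) μ :=
    integrable_of_bdd (hMm.comp hT.measurable) (fun x => Mx_bdd hC hb N (T x))
  have hgi : Integrable g μ := integrable_of_bdd hg hb
  set E := {x | 0 < M x} with hE
  have hEm : MeasurableSet E := measurableSet_lt measurable_const hMm
  have h1 : ∫ x in E, (M x - M (T x)) ∂μ ≤ ∫ x in E, g x ∂μ := by
    refine setIntegral_mono_on (hMi.sub hMTi).integrableOn hgi.integrableOn hEm ?_
    intro x hx
    cases N with
    | zero =>
      exact absurd hx (by simp [hE, hM, Mx])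
    | succ N =>
      have hx' : 0 < max 0 (g x + Mx T g N (T x)) := hx
      have hx2 : 0 < g x + Mx T g N (T x) := by
        rcases lt_max_iff.1 hx' with h | h
        · exact absurd h (lt_irrefl _)
        · exact h
      have e : M x = g x + Mx T g N (T x) := max_eq_right hx2.le
      have := Mx_mono T g N (T x)
      have e2 : M (T x) = Mx T g (N + 1) (T x) := rfl
      rw [e, e2]
      linarith
  have h2 : ∫ x in E, (M x - M (T x)) ∂μ = ∫ x in E, M x ∂μ - ∫ x in E, M (T x) ∂μ :=
    integral_sub hMi.integrableOn hMTi.integrableOn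
  have h3 : ∫ x in E, M x ∂μ = ∫ x, M x ∂μ := by
    refine setIntegral_eq_integral_of_forall_compl_eq_zero ?_
    intro x hx
    have h : ¬ 0 < M x := hx
    exact le_antisymm (not_lt.1 h) (Mx_nonneg T g N x)
  have h4 : ∫ x in E, M (T x) ∂μ ≤ ∫ x, M (T x) ∂μ :=
    setIntegral_le_integral hMTi (Eventually.of_forall fun x => Mx_nonneg T g N (T x))
  have h5 : ∫ x, M (T x) ∂μ = ∫ x, M x ∂μ := by
    have := hT.map_eq
    conv_rhs => rw [← this]
    rw [integral_map hT.measurable.aemeasurable hMm.aestronglyMeasurable]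
  linarith

theorem birkhoffSum_indicator {T : Ω → Ω} {g : Ω → ℝ} {W : Set Ω} (hW : ∀ x, T x ∈ W ↔ x ∈ W)
    (n : ℕ) : ∀ x, x ∈ W → birkhoffSum T (W.indicator g) n x = birkhoffSum T g n x := by
  induction n with
  | zero => intro x _; simp
  | succ n ih =>
    intro x hx
    rw [birkhoffSum_succ', birkhoffSum_succ', ih (T x) ((hW x).2 hx), Set.indicator_of_mem hx]

theorem Mx_indicator_compl {T : Ω → Ω} {g : Ω → ℝ} {W : Set Ω} (hW : ∀ x, T x ∈ W ↔ x ∈ W)
    (n : ℕ) : ∀ x, x ∉ W → Mx T (W.indicator g) n x = 0 := by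
  induction n with
  | zero => intro x _; rfl
  | succ n ih =>
    intro x hx
    show max 0 (W.indicator g x + Mx T (W.indicator g) n (T x)) = 0
    rw [ih (T x) (fun h => hx ((hW x).1 h)), Set.indicator_of_notMem hx]
    simp

/-- If `W` is invariant and every point of `W` has a positive Birkhoff sum, the integral over `W` is
nonnegative. -/
theorem int_nonneg {μ : Measure Ω} [IsProbabilityMeasure μ] {T : Ω → Ω}
    (hT : MeasurePreserving T μ μ) {g : Ω → ℝ} (hg : Measurable g) {C : ℝ} (hC : 0 ≤ C)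
    (hb : ∀ x, |g x| ≤ C) {W : Set Ω} (hWm : MeasurableSet W) (hW : ∀ x, T x ∈ W ↔ x ∈ W)
    (hp : ∀ x ∈ W, ∃ n : ℕ, 0 < birkhoffSum T g n x) :
    0 ≤ ∫ x in W, g x ∂μ := by
  set h := W.indicator g with hh
  have hhm : Measurable h := hg.indicator hWm
  have hhb : ∀ x, |h x| ≤ C := by
    intro x
    by_cases hx : x ∈ W
    · rw [hh, Set.indicator_of_mem hx]; exact hb x
    · rw [hh, Set.indicator_of_notMem hx]; simpa using hC
  have hhi : Integrable h μ := integrable_of_bdd hhm hhb
  have hmono : Monotone (fun N => {x | 0 < Mx T h N x}) := by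
    refine monotone_nat_of_le_succ ?_
    intro N x hx
    exact lt_of_lt_of_le hx (Mx_mono T h N x)
  have hun : (⋃ N, {x | 0 < Mx T h N x}) = W := by
    ext x
    simp only [Set.mem_iUnion, Set.mem_setOf_eq]
    constructor
    · rintro ⟨N, hN⟩
      by_contra hx
      rw [Mx_indicator_compl hW N x hx] at hN
      exact lt_irrefl _ hN
    · intro hx
      obtain ⟨n, hn⟩ := hp x hx
      refine ⟨n, lt_of_lt_of_le ?_ (le_Mx T h n x)⟩
      rw [birkhoffSum_indicator hW n x hx]
      exact hn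
  have hlim : Tendsto (fun N => ∫ x in {x | 0 < Mx T h N x}, h x ∂μ) atTop
      (𝓝 (∫ x in ⋃ N, {x | 0 < Mx T h N x}, h x ∂μ)) := by
    refine tendsto_setIntegral_of_monotone ?_ hmono hhi.integrableOn
    intro N
    exact measurableSet_lt measurable_const (Mx_meas hT.measurable hhm N)
  rw [hun] at hlim
  have h1 : 0 ≤ ∫ x in W, h x ∂μ :=
    ge_of_tendsto' hlim (fun N => max_erg hT hhm hC hhb N)
  have h2 : ∫ x in W, h x ∂μ = ∫ x in W, g x ∂μ := by
    refine setIntegral_congr_fun hWm ?_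
    intro x hx
    exact Set.indicator_of_mem hx g
  rw [← h2]
  exact h1

end Maximal

section Averages

variable {Ω : Type} [MeasurableSpace Ω]

/-- averages -/
noncomputable def av (T : Ω → Ω) (f : Ω → ℝ) (n : ℕ) (x : Ω) : ℝ :=
  (∑ k ∈ Finset.range n, f (T^[k] x)) / n

theorem av_eq (T : Ω → Ω) (f : Ω → ℝ) (n : ℕ) (x : Ω) : av T f n x = birkhoffSum T f n x / n := rfl

theorem bsum_bdd {T : Ω → Ω} {f : Ω → ℝ} {C : ℝ} (hb : ∀ x, |f x| ≤ C) (n : ℕ) (x : Ω) :
    |birkhoffSum T f n x| ≤ n * C := by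
  unfold birkhoffSum
  refine (Finset.abs_sum_le_sum_abs _ _).trans ?_
  refine (Finset.sum_le_sum (fun k _ => hb (T^[k] x))).trans ?_
  simp

theorem av_bdd {T : Ω → Ω} {f : Ω → ℝ} {C : ℝ} (hC : 0 ≤ C) (hb : ∀ x, |f x| ≤ C) (n : ℕ) (x : Ω) :
    |av T f n x| ≤ C := by
  rw [av_eq, abs_div]
  rcases Nat.eq_zero_or_pos n with rfl | hn
  · simpa using hC
  · have hn' : (0 : ℝ) < n := by exact_mod_cast hn
    rw [abs_of_pos hn', div_le_iff₀ hn']
    have := bsum_bdd (T := T) hb n x
    linarith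

theorem av_meas {T : Ω → Ω} {f : Ω → ℝ} (hT : Measurable T) (hf : Measurable f) (n : ℕ) :
    Measurable (av T f n) := by
  unfold av
  refine Measurable.div_const ?_ _
  exact Finset.measurable_sum _ (fun k _ => hf.comp (hT.iterate k))

theorem av_shift {T : Ω → Ω} {f : Ω → ℝ} {C : ℝ} (hb : ∀ x, |f x| ≤ C) (x : Ω) :
    Tendsto (fun n => av T f n (T x) - av T f n x) atTop (𝓝 0) := by
  have h1 : ∀ n, av T f n (T x) - av T f n x = (f (T^[n] x) - f x) / n := by
    intro n
    rw [av_eq, av_eq, ← sub_div, birkhoffSum_apply_sub_birkhoffSum]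
  simp only [h1]
  have h2 : Tendsto (fun n : ℕ => (2 * C) / (n : ℝ)) atTop (𝓝 0) :=
    tendsto_const_div_atTop_nhds_zero_nat (2 * C)
  refine squeeze_zero_norm ?_ h2
  intro n
  rw [Real.norm_eq_abs, abs_div, Nat.abs_cast]
  have h3 := hb (T^[n] x)
  have h4 := hb x
  have h5 : |f (T^[n] x) - f x| ≤ 2 * C := by
    have := abs_sub (f (T^[n] x)) (f x)
    linarith
  exact div_le_div_of_nonneg_right h5 (Nat.cast_nonneg n)

/-- upper limit of the averages -/
noncomputable def up (T : Ω → Ω) (f : Ω → ℝ) (x : Ω) : ℝ := limsup (fun n => av T f n x) atTop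

theorem isBdd_le {T : Ω → Ω} {f : Ω → ℝ} {C : ℝ} (hC : 0 ≤ C) (hb : ∀ x, |f x| ≤ C) (x : Ω) :
    IsBoundedUnder (· ≤ ·) atTop (fun n => av T f n x) :=
  ⟨C, eventually_map.2 (Eventually.of_forall fun n => (abs_le.1 (av_bdd hC hb n x)).2)⟩

theorem isBdd_ge {T : Ω → Ω} {f : Ω → ℝ} {C : ℝ} (hC : 0 ≤ C) (hb : ∀ x, |f x| ≤ C) (x : Ω) :
    IsBoundedUnder (· ≥ ·) atTop (fun n => av T f n x) :=
  ⟨-C, eventually_map.2 (Eventually.of_forall fun n => (abs_le.1 (av_bdd hC hb n x)).1)⟩

theorem up_inv {T : Ω → Ω} {f : Ω → ℝ} {C : ℝ} (hC : 0 ≤ C) (hb : ∀ x, |f x| ≤ C) (x : Ω) :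
    up T f (T x) = up T f x := by
  have h := av_shift (T := T) hb x
  have key : ∀ y z : Ω, Tendsto (fun n => av T f n y - av T f n z) atTop (𝓝 0) →
      up T f y ≤ up T f z := by
    intro y z hyz
    refine le_of_forall_pos_le_add ?_
    intro ε hε
    unfold up
    have h1 : ∀ᶠ n in atTop, av T f n z < limsup (fun n => av T f n z) atTop + ε / 2 :=
      eventually_lt_of_limsup_lt (by linarith) (isBdd_le hC hb z)
    have h2 : ∀ᶠ n in atTop, av T f n y - av T f n z < ε / 2 :=
      hyz.eventually_lt_const (by linarith)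
    refine limsup_le_of_le (isBdd_ge hC hb y).isCoboundedUnder_le ?_
    filter_upwards [h1, h2] with n hn1 hn2
    linarith
  refine le_antisymm (key _ _ h) (key _ _ ?_)
  have := h.neg
  simpa using this

theorem up_meas {T : Ω → Ω} {f : Ω → ℝ} (hT : Measurable T) (hf : Measurable f) :
    Measurable (up T f) := by
  unfold up
  exact Measurable.limsup (fun n => av_meas hT hf n)

theorem av_neg (T : Ω → Ω) (f : Ω → ℝ) (n : ℕ) (x : Ω) :
    av T (fun x => - f x) n x = - av T f n x := by
  unfold av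
  rw [Finset.sum_neg_distrib, neg_div]

theorem exists_sum_pos {T : Ω → Ω} {f : Ω → ℝ} {C : ℝ} (hC : 0 ≤ C) (hb : ∀ x, |f x| ≤ C) {q : ℝ}
    {x : Ω} (h : q < up T f x) : ∃ n : ℕ, 0 < birkhoffSum T (fun y => f y - q) n x := by
  have h1 : ∃ᶠ n in atTop, q < av T f n x := by
    refine frequently_lt_of_lt_limsup ?_ h
    exact (isBdd_ge hC hb x).isCoboundedUnder_le
  obtain ⟨n, hn1, hn2⟩ := (h1.and_eventually (eventually_gt_atTop 0)).exists
  refine ⟨n, ?_⟩
  have hn' : (0 : ℝ) < n := by exact_mod_cast hn2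
  have e : birkhoffSum T (fun y => f y - q) n x = birkhoffSum T f n x - n * q := by
    unfold birkhoffSum
    rw [Finset.sum_sub_distrib]
    simp
  rw [e]
  rw [av_eq, lt_div_iff₀ hn'] at hn1
  linarith

/-- the basic inequality: the set where the averages oscillate across `[p, q]` is null -/
theorem osc_null {μ : Measure Ω} [IsProbabilityMeasure μ] {T : Ω → Ω}
    (hT : MeasurePreserving T μ μ) {f : Ω → ℝ} (hf : Measurable f) {C : ℝ} (hC : 0 ≤ C)
    (hb : ∀ x, |f x| ≤ C) {p q : ℝ} (hpq : p < q) :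
    μ {x | - p < up T (fun y => - f y) x ∧ q < up T f x} = 0 := by
  have hnb : ∀ x, |(fun y => - f y) x| ≤ C := fun x => by simpa using hb x
  have hnm : Measurable (fun y => - f y) := hf.neg
  set W := {x | - p < up T (fun y => - f y) x ∧ q < up T f x} with hWdef
  have hWm : MeasurableSet W :=
    (measurableSet_lt measurable_const (up_meas hT.measurable hnm)).inter
      (measurableSet_lt measurable_const (up_meas hT.measurable hf))
  have hW : ∀ x, T x ∈ W ↔ x ∈ W := by
    intro x
    simp only [hWdef, Set.mem_setOf_eq]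
    rw [up_inv hC hb, up_inv hC hnb]
  have h1 : 0 ≤ ∫ x in W, (f x - q) ∂μ := by
    refine int_nonneg hT (hf.sub_const q) (C := C + |q|) (by positivity) ?_ hWm hW ?_
    · intro x
      have := abs_sub (f x) q
      have := hb x
      linarith
    · intro x hx
      exact exists_sum_pos hC hb hx.2
  have h2 : 0 ≤ ∫ x in W, (- f x - (-p)) ∂μ := by
    refine int_nonneg hT (hnm.sub_const (-p)) (C := C + |p|) (by positivity) ?_ hWm hW ?_
    · intro x
      have h := abs_sub (- f x) (-p)
      rw [abs_neg, abs_neg] at h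
      have := hb x
      linarith
    · intro x hx
      exact exists_sum_pos hC hnb hx.1
  have hfi : Integrable f μ := integrable_of_bdd hf hb
  have h3 : ∫ x in W, (f x - q) ∂μ + ∫ x in W, (- f x - (-p)) ∂μ
      = (p - q) * μ.real W := by
    rw [← integral_add]
    · have : ∀ x, (f x - q) + (- f x - (-p)) = p - q := by intro x; ring
      simp only [this]
      rw [setIntegral_const, smul_eq_mul, mul_comm]
    · exact (hfi.sub (integrable_const q)).integrableOn
    · exact (hfi.neg.sub (integrable_const (-p))).integrableOn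
  have h4 : 0 ≤ (p - q) * μ.real W := by rw [← h3]; linarith
  have h5 : μ.real W = 0 := by
    have h6 : 0 ≤ μ.real W := measureReal_nonneg
    nlinarith
  rw [measureReal_eq_zero_iff] at h5
  exact h5

theorem birk_main {μ : Measure Ω} [IsProbabilityMeasure μ] {T : Ω → Ω}
    (hT : MeasurePreserving T μ μ) {f : Ω → ℝ} (hf : Measurable f) {C : ℝ} (hC : 0 ≤ C)
    (hb : ∀ x, |f x| ≤ C) :
    ∀ᵐ x ∂μ, Tendsto (fun n => av T f n x) atTop (𝓝 (up T f x)) := by
  have h : ∀ᵐ x ∂μ, ∀ p q : ℚ, p < q →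
      ¬ (- (p : ℝ) < up T (fun y => - f y) x ∧ (q : ℝ) < up T f x) := by
    rw [ae_all_iff]
    intro p
    rw [ae_all_iff]
    intro q
    by_cases hpq : p < q
    · have := osc_null hT hf hC hb (p := (p : ℝ)) (q := (q : ℝ)) (by exact_mod_cast hpq)
      have h2 : ∀ᵐ x ∂μ, ¬ (- (p : ℝ) < up T (fun y => - f y) x ∧ (q : ℝ) < up T f x) :=
        measure_eq_zero_iff_ae_notMem.1 this
      filter_upwards [h2] with x hx _
      exact hx
    · exact Eventually.of_forall fun x hx => absurd hx hpq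
  filter_upwards [h] with x hx
  -- the lower limit is at least the upper limit
  have hlow : up T f x ≤ - up T (fun y => - f y) x := by
    by_contra hcon
    rw [not_le] at hcon
    obtain ⟨p, hp1, hp2⟩ := exists_rat_btwn hcon
    obtain ⟨q, hq1, hq2⟩ := exists_rat_btwn hp2
    refine hx p q (by exact_mod_cast hq1) ⟨by linarith, hq2⟩
  have hnb : ∀ x, |(fun y => - f y) x| ≤ C := fun x => by simpa using hb x
  refine tendsto_order.2 ⟨?_, ?_⟩
  · intro a ha
    have h1 : up T (fun y => - f y) x < - a := by linarith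
    have h2 : ∀ᶠ n in atTop, av T (fun y => - f y) n x < - a :=
      eventually_lt_of_limsup_lt h1 (isBdd_le hC hnb x)
    filter_upwards [h2] with n hn
    rw [av_neg] at hn
    linarith
  · intro a ha
    exact eventually_lt_of_limsup_lt ha (isBdd_le hC hb x)

end Averages

theorem birk : BirkStmt := by
  intro Ω _ μ hμ T hT f hf hb
  obtain ⟨C, hC⟩ := hb
  have hC0 : 0 ≤ C ∨ IsEmpty Ω := by
    rcases isEmpty_or_nonempty Ω with h | h
    · exact Or.inr h
    · obtain ⟨x⟩ := h
      exact Or.inl ((abs_nonneg _).trans (hC x))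
  rcases hC0 with hC0 | h
  · filter_upwards [birk_main hT hf hC0 hC] with x hx
    exact ⟨_, hx⟩
  · exact Eventually.of_forall fun x => (h.false x).elim

end Pool.Agent.BS.H45
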