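import Pool.Agent.Helper45_BS.Birk

/-! # BS squad, module ERG: both directions, same limit, and the limit on invariant sets -/

set_option autoImplicit false
set_option linter.unusedSectionVars false
set_option linter.deprecated false

namespace Pool.Agent.BS.H45

open Function Filter MeasureTheory Topology

variable {Ω : Type} [MeasurableSpace Ω]

theorem int_inv {μ : Measure Ω} [IsProbabilityMeasure μ] {T : Ω → Ω}
    (hT : MeasurePreserving T μ μ) {f : Ω → ℝ} (hf : Measurable f)
    {W : Set Ω} (hWm : MeasurableSet W) (hW : ∀ᵐ x ∂μ, x ∈ W ↔ T x ∈ W) :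
    ∫ x in W, f (T x) ∂μ = ∫ x in W, f x ∂μ := by
  rw [← integral_indicator hWm, ← integral_indicator hWm]
  have h1 : ∫ x, W.indicator f x ∂μ = ∫ x, W.indicator f (T x) ∂μ := by
    have := hT.map_eq
    conv_lhs => rw [← this]
    rw [integral_map hT.measurable.aemeasurable (hf.indicator hWm).aestronglyMeasurable]
  rw [h1]
  refine integral_congr_ae ?_
  filter_upwards [hW] with x hx
  by_cases h : x ∈ W
  · rw [Set.indicator_of_mem h, Set.indicator_of_mem (hx.1 h)]
  · rw [Set.indicator_of_notMem h, Set.indicator_of_notMem (fun h' => h (hx.2 h'))]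

theorem int_av {μ : Measure Ω} [IsProbabilityMeasure μ] {T : Ω → Ω}
    (hT : MeasurePreserving T μ μ) {f : Ω → ℝ} (hf : Measurable f) {C : ℝ}
    (hb : ∀ x, |f x| ≤ C)
    {W : Set Ω} (hWm : MeasurableSet W) (hW : ∀ᵐ x ∂μ, x ∈ W ↔ T x ∈ W) (n : ℕ) (hn : 0 < n) :
    ∫ x in W, av T f n x ∂μ = ∫ x in W, f x ∂μ := by
  have h1 : ∀ k : ℕ, ∫ x in W, f (T^[k] x) ∂μ = ∫ x in W, f x ∂μ := by
    intro k
    induction k with
    | zero => rfl
    | succ k ih =>
      rw [← ih]
      have := int_inv hT (f := fun x => f (T^[k] x)) (hf.comp (hT.measurable.iterate k)) hWm hW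
      rw [← this]
      rfl
  unfold av
  rw [integral_div, integral_finset_sum]
  · simp only [h1]
    rw [Finset.sum_const, Finset.card_range, nsmul_eq_mul]
    have hn' : (n : ℝ) ≠ 0 := by exact_mod_cast hn.ne'
    field_simp
  · intro k _
    exact (integrable_of_bdd (hf.comp (hT.measurable.iterate k)) (fun x => hb _)).integrableOn

/-- The integral of the limit over an invariant set. -/
theorem int_up {μ : Measure Ω} [IsProbabilityMeasure μ] {T : Ω → Ω}
    (hT : MeasurePreserving T μ μ) {f : Ω → ℝ} (hf : Measurable f) {C : ℝ} (hC : 0 ≤ C)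
    (hb : ∀ x, |f x| ≤ C)
    {W : Set Ω} (hWm : MeasurableSet W) (hW : ∀ᵐ x ∂μ, x ∈ W ↔ T x ∈ W) :
    ∫ x in W, up T f x ∂μ = ∫ x in W, f x ∂μ := by
  have h1 : Tendsto (fun n => ∫ x in W, av T f n x ∂μ) atTop (𝓝 (∫ x in W, up T f x ∂μ)) := by
    refine tendsto_integral_of_dominated_convergence (fun _ => C) ?_ ?_ ?_ ?_
    · intro n
      exact (av_meas hT.measurable hf n).aestronglyMeasurable
    · exact integrable_const C
    · intro n
      exact Eventually.of_forall fun x => av_bdd hC hb n x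
    · exact ae_restrict_of_ae (birk_main hT hf hC hb)
  refine tendsto_nhds_unique h1 ?_
  refine tendsto_const_nhds.congr' ?_
  filter_upwards [eventually_gt_atTop 0] with n hn
  exact (int_av hT hf hb hWm hW n hn).symm

theorem up_bdd {T : Ω → Ω} {f : Ω → ℝ} {C : ℝ} (hC : 0 ≤ C) (hb : ∀ x, |f x| ≤ C) (x : Ω) :
    |up T f x| ≤ C := by
  rw [abs_le]
  unfold up
  constructor
  · refine le_limsup_of_frequently_le ?_ (isBdd_le hC hb x)
    exact Eventually.frequently (Eventually.of_forall fun n => (abs_le.1 (av_bdd hC hb n x)).1)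
  · refine limsup_le_of_le (isBdd_ge hC hb x).isCoboundedUnder_le ?_
    exact Eventually.of_forall fun n => (abs_le.1 (av_bdd hC hb n x)).2

theorem half {μ : Measure Ω} [IsProbabilityMeasure μ] {T S : Ω → Ω}
    (hT : MeasurePreserving T μ μ) (hS : MeasurePreserving S μ μ)
    (hST : ∀ᵐ x ∂μ, S (T x) = x) (hTS : ∀ᵐ x ∂μ, T (S x) = x) {f : Ω → ℝ} (hf : Measurable f)
    {C : ℝ} (hC : 0 ≤ C) (hb : ∀ x, |f x| ≤ C) :
    ∀ᵐ x ∂μ, up T f x ≤ up S f x := by
  have hTm := up_meas hT.measurable hf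
  have hSm := up_meas hS.measurable hf
  have key : ∀ p q : ℚ, p < q →
      ∀ᵐ x ∂μ, ¬ (up S f x < (p : ℝ) ∧ (q : ℝ) < up T f x) := by
    intro p q hpq
    set W := {x | up S f x < (p : ℝ) ∧ (q : ℝ) < up T f x} with hWdef
    have hWm : MeasurableSet W :=
      (measurableSet_lt hSm measurable_const).inter (measurableSet_lt measurable_const hTm)
    have hW1 : ∀ᵐ x ∂μ, x ∈ W ↔ T x ∈ W := by
      filter_upwards [hST] with x hx
      simp only [hWdef, Set.mem_setOf_eq]
      rw [up_inv hC hb (T := T) x]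
      have h2 : up S f x = up S f (T x) := by
        conv_lhs => rw [← hx]
        exact up_inv hC hb (T x)
      rw [h2]
    have hW2 : ∀ᵐ x ∂μ, x ∈ W ↔ S x ∈ W := by
      filter_upwards [hTS] with x hx
      simp only [hWdef, Set.mem_setOf_eq]
      rw [up_inv hC hb (T := S) x]
      have h2 : up T f x = up T f (S x) := by
        conv_lhs => rw [← hx]
        exact up_inv hC hb (S x)
      rw [h2]
    have e1 := int_up hT hf hC hb hWm hW1
    have e2 := int_up hS hf hC hb hWm hW2
    have i1 : Integrable (up T f) μ := integrable_of_bdd hTm (up_bdd hC hb)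
    have i2 : Integrable (up S f) μ := integrable_of_bdd hSm (up_bdd hC hb)
    have b1 : (q : ℝ) * μ.real W ≤ ∫ x in W, up T f x ∂μ := by
      have : ∫ _ in W, (q : ℝ) ∂μ = (q : ℝ) * μ.real W := by
        rw [setIntegral_const, smul_eq_mul, mul_comm]
      rw [← this]
      refine setIntegral_mono_on (integrable_const _).integrableOn i1.integrableOn hWm ?_
      intro x hx
      exact hx.2.le
    have b2 : ∫ x in W, up S f x ∂μ ≤ (p : ℝ) * μ.real W := by
      have : ∫ _ in W, (p : ℝ) ∂μ = (p : ℝ) * μ.real W := by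
        rw [setIntegral_const, smul_eq_mul, mul_comm]
      rw [← this]
      refine setIntegral_mono_on i2.integrableOn (integrable_const _).integrableOn hWm ?_
      intro x hx
      exact hx.1.le
    have hpq' : (p : ℝ) < q := by exact_mod_cast hpq
    have h5 : μ.real W = 0 := by
      have h6 : 0 ≤ μ.real W := measureReal_nonneg
      nlinarith
    rw [measureReal_eq_zero_iff] at h5
    exact measure_eq_zero_iff_ae_notMem.1 h5
  have h : ∀ᵐ x ∂μ, ∀ p q : ℚ, p < q → ¬ (up S f x < (p : ℝ) ∧ (q : ℝ) < up T f x) := by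
    rw [ae_all_iff]
    intro p
    rw [ae_all_iff]
    intro q
    by_cases hpq : p < q
    · filter_upwards [key p q hpq] with x hx _
      exact hx
    · exact Eventually.of_forall fun x hx => absurd hx hpq
  filter_upwards [h] with x hx
  by_contra hcon
  rw [not_le] at hcon
  obtain ⟨p, hp1, hp2⟩ := exists_rat_btwn hcon
  obtain ⟨q, hq1, hq2⟩ := exists_rat_btwn hp2
  exact hx p q (by exact_mod_cast hq1) ⟨hp1, hq2⟩

theorem erg_main {μ : Measure Ω} [IsProbabilityMeasure μ] {T S : Ω → Ω}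
    (hT : MeasurePreserving T μ μ) (hS : MeasurePreserving S μ μ)
    (hST : ∀ᵐ x ∂μ, S (T x) = x) (hTS : ∀ᵐ x ∂μ, T (S x) = x) {f : Ω → ℝ} (hf : Measurable f)
    {C : ℝ} (hC : 0 ≤ C) (hb : ∀ x, |f x| ≤ C) :
    (∀ᵐ x ∂μ, ∃ a : ℝ, Tendsto (fun n : ℕ => av T f n x) atTop (𝓝 a) ∧
      Tendsto (fun n : ℕ => av S f n x) atTop (𝓝 a)) ∧
      ∀ W : Set Ω, MeasurableSet W → (∀ᵐ x ∂μ, x ∈ W ↔ T x ∈ W) → 0 < ∫ x in W, f x ∂μ →
        0 < μ {x | x ∈ W ∧ ∃ a : ℝ, 0 < a ∧ Tendsto (fun n : ℕ => av T f n x) atTop (𝓝 a)} := by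
  constructor
  · filter_upwards [birk_main hT hf hC hb, birk_main hS hf hC hb, half hT hS hST hTS hf hC hb,
      half hS hT hTS hST hf hC hb] with x h1 h2 h3 h4
    refine ⟨up T f x, h1, ?_⟩
    rw [le_antisymm h3 h4]
    exact h2
  · intro W hWm hW hpos
    have e1 := int_up hT hf hC hb hWm hW
    rw [← e1] at hpos
    have hTm := up_meas hT.measurable hf
    have i1 : Integrable (up T f) μ := integrable_of_bdd hTm (up_bdd hC hb)
    by_contra hcon
    rw [not_lt, nonpos_iff_eq_zero] at hcon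
    have h2 : ∀ᵐ x ∂μ, ¬ (x ∈ W ∧ ∃ a : ℝ, 0 < a ∧
        Tendsto (fun n : ℕ => av T f n x) atTop (𝓝 a)) := measure_eq_zero_iff_ae_notMem.1 hcon
    have h3 : ∫ x in W, up T f x ∂μ ≤ 0 := by
      rw [← integral_indicator hWm]
      refine integral_nonpos_of_ae ?_
      filter_upwards [h2, birk_main hT hf hC hb] with x hx h1
      by_cases hxW : x ∈ W
      · rw [Set.indicator_of_mem hxW]
        by_contra hneg
        exact hx ⟨hxW, up T f x, not_le.1 hneg, h1⟩
      · rw [Set.indicator_of_notMem hxW]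
        exact le_refl _
    linarith

theorem erg : ErgStmt := by
  intro Ω _ μ hμ T S hT hS hST hTS f hf hb
  obtain ⟨C, hC⟩ := hb
  have hC0 : 0 ≤ C ∨ IsEmpty Ω := by
    rcases isEmpty_or_nonempty Ω with h | h
    · exact Or.inr h
    · obtain ⟨x⟩ := h
      exact Or.inl ((abs_nonneg _).trans (hC x))
  rcases hC0 with hC0 | h
  · exact erg_main hT hS hST hTS hf hC0 hC
  · refine ⟨Eventually.of_forall fun x => (h.false x).elim, ?_⟩
    intro W _ _ hpos
    have : W = ∅ := Set.eq_empty_of_isEmpty W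
    rw [this] at hpos
    simp at hpos

end Pool.Agent.BS.H45
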