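import Pool.Agent.Helper45_BS.Hall

/-! # BS squad, module FLOW -/

set_option autoImplicit false

namespace Pool.Agent.BS.H45

open Function Pool.Agent.BS

variable {D V : Type} (T : TMap D V)

/-! ### finite balls -/

open Classical in
/-- the ball as a finite set -/
noncomputable def bF (d : D) : ℕ → Finset D
  | 0 => {d}
  | n + 1 => bF d n ∪ ((bF d n).image T.lam ∪ ((bF d n).image T.lam.symm ∪ (bF d n).image T.al))

theorem mem_bF {d e : D} {n : ℕ} (h : e ∈ T.ball d n) : e ∈ bF T d n := by
  classical
  induction n generalizing e with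
  | zero =>
    have : e = d := h
    simp [bF, this]
  | succ n ih =>
    obtain ⟨f, hf, h⟩ := h
    have hf' := ih hf
    simp only [bF, Finset.mem_union, Finset.mem_image]
    rcases h with h | h | h | h
    · left; rw [h]; exact hf'
    · right; left; exact ⟨f, hf', h.symm⟩
    · right; right; left; exact ⟨f, hf', h.symm⟩
    · right; right; right; exact ⟨f, hf', h.symm⟩

theorem bF_card (d : D) (n : ℕ) : (bF T d n).card ≤ 4 ^ n := by
  classical
  induction n with
  | zero => simp [bF]
  | succ n ih =>
    have h1 := Finset.card_union_le (bF T d n)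
      ((bF T d n).image T.lam ∪ ((bF T d n).image T.lam.symm ∪ (bF T d n).image T.al))
    have h2 := Finset.card_union_le ((bF T d n).image T.lam)
      ((bF T d n).image T.lam.symm ∪ (bF T d n).image T.al)
    have h3 := Finset.card_union_le ((bF T d n).image T.lam.symm) ((bF T d n).image T.al)
    have h4 : ((bF T d n).image T.lam).card ≤ (bF T d n).card := Finset.card_image_le
    have h5 : ((bF T d n).image T.lam.symm).card ≤ (bF T d n).card := Finset.card_image_le
    have h6 : ((bF T d n).image T.al).card ≤ (bF T d n).card := Finset.card_image_le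
    rw [pow_succ]
    simp only [bF]
    omega

/-! ### the darts crossed when walking through a ball -/

/-- a path of darts (given by the telescoping property) -/
theorem exists_path {d e : D} {n : ℕ} (h : e ∈ T.ball d n) :
    ∃ l : List D, l.length ≤ n ∧ (∀ a ∈ l, a ∈ T.ball d n) ∧
      ∀ g : V → ℤ, (l.map (fun a => g (T.lf a) - g (T.rt a))).sum = g (T.lf d) - g (T.lf e) := by
  induction n generalizing e with
  | zero =>
    have : e = d := h
    exact ⟨[], by simp, by simp, by intro g; simp [this]⟩
  | succ n ih =>
    obtain ⟨f, hf, h⟩ := h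
    obtain ⟨l, h1, h2, h3⟩ := ih hf
    have key : T.lf e = T.lf f ∨ e = T.al f := by
      rcases h with h | h | h | h
      · left; rw [h]
      · left; rw [h, T.lf_lam]
      · left; rw [h, T.lf_lam_symm]
      · right; exact h
    rcases key with h4 | h4
    · exact ⟨l, by omega, fun a ha => ball_mono_succ T (h2 a ha), by intro g; rw [h3 g, h4]⟩
    · refine ⟨f :: l, by simp; omega, ?_, ?_⟩
      · intro a ha
        rcases List.mem_cons.1 ha with ha | ha
        · rw [ha]; exact ball_mono_succ T hf
        · exact ball_mono_succ T (h2 a ha)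
      · intro g
        rw [List.map_cons, List.sum_cons, h3 g, h4]
        have : T.lf (T.al f) = T.rt f := rfl
        rw [this]
        ring

theorem list_sum_count [DecidableEq D] [DecidableEq V] (l : List D) (v : V) :
    ∑ a ∈ T.star v, (((l.count a : ℕ) : ℤ) - ((l.count (T.al a) : ℕ) : ℤ)) =
      (l.map (fun a => (if T.lf a = v then (1 : ℤ) else 0) - (if T.rt a = v then 1 else 0))).sum := by
  induction l with
  | nil => simp
  | cons b l ih =>
    rw [List.map_cons, List.sum_cons, ← ih, ← sub_eq_iff_eq_add, ← Finset.sum_sub_distrib]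
    have h1 : ∀ a : D, (((b :: l).count a : ℕ) : ℤ) - (((b :: l).count (T.al a) : ℕ) : ℤ)
        - (((l.count a : ℕ) : ℤ) - ((l.count (T.al a) : ℕ) : ℤ))
        = (if b = a then 1 else 0) - (if b = T.al a then 1 else 0) := by
      intro a
      rw [List.count_cons, List.count_cons]
      push_cast
      have e1 : (b == a) = decide (b = a) := by
        by_cases h : b = a <;> simp [h]
      have e2 : (b == T.al a) = decide (b = T.al a) := by
        by_cases h : b = T.al a <;> simp [h]
      rw [e1, e2]
      simp only [decide_eq_true_eq]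
      split_ifs <;> ring
    rw [Finset.sum_congr rfl (fun a _ => h1 a), Finset.sum_sub_distrib, Finset.sum_ite_eq]
    congr 1
    · simp only [T.mem_star]
    · have h2 : ∀ a : D, (b = T.al a) ↔ (T.al b = a) := by
        intro a
        constructor
        · intro h; rw [h, T.al_al]
        · intro h; rw [← h, T.al_al]
      simp only [h2]
      rw [Finset.sum_ite_eq]
      simp only [T.mem_star]
      rfl

theorem flow (hH : HallStmt) : FlowStmt := by
  classical
  intro D V T Δ h hΔ hh hC hV
  obtain ⟨r, f, hf, hfx⟩ := hH D V T Δ h hΔ hh hC hV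
  choose dd ee h1 h2 h3 using hfx
  have hp := fun x : V × Bool => exists_path T (h2 x)
  choose l hl1 hl2 hl3 using hp
  -- the finite set of relevant indices
  let J : D → Finset (V × Bool) := fun a =>
    ((bF T a r) ×ˢ (Finset.univ : Finset Bool)).image (fun y => (T.lf y.1, y.2))
  have hJ : ∀ a x, a ∈ l x → x ∈ J a := by
    intro a x ha
    have h4 := ball_symm T (hl2 x a ha)
    rw [Finset.mem_image]
    exact ⟨(dd x, x.2), by simp [mem_bF T h4], by ext <;> simp [h1]⟩
  have hJc : ∀ a, (J a).card ≤ 2 * 4 ^ r := by
    intro a
    refine Finset.card_image_le.trans ?_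
    rw [Finset.card_product, Finset.card_univ, Fintype.card_bool]
    have := bF_card T a r
    omega
  let G : D → V × Bool → ℤ := fun a x =>
    (((l x).count a : ℕ) : ℤ) - (((l x).count (T.al a) : ℕ) : ℤ)
  have hG0 : ∀ a x, x ∉ J a ∪ J (T.al a) → G a x = 0 := by
    intro a x hx
    rw [Finset.mem_union, not_or] at hx
    have e1 : (l x).count a = 0 := List.count_eq_zero.2 (fun h => hx.1 (hJ _ _ h))
    have e2 : (l x).count (T.al a) = 0 := List.count_eq_zero.2 (fun h => hx.2 (hJ _ _ h))
    simp [G, e1, e2]
  have hGs : ∀ a, support (G a) ⊆ ((J a ∪ J (T.al a) : Finset (V × Bool)) : Set (V × Bool)) := by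
    intro a x hx
    by_contra hc
    exact hx (hG0 a x hc)
  have hGf : ∀ a, (support (G a)).Finite := fun a => (Finset.finite_toSet _).subset (hGs a)
  have hGb : ∀ a x, |G a x| ≤ r := by
    intro a x
    have e1 : (l x).count a ≤ r := List.count_le_length.trans (hl1 x)
    have e2 : (l x).count (T.al a) ≤ r := List.count_le_length.trans (hl1 x)
    simp only [G]
    rw [abs_le]
    constructor <;> omega
  refine ⟨(2 * (2 * 4 ^ r)) * r, fun a => ∑ᶠ x, G a x, ?_, ?_, ?_⟩
  · intro a
    rw [← finsum_neg_distrib]
    refine finsum_congr (fun x => ?_)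
    simp only [G, T.al_al]
    ring
  · intro a
    rw [finsum_eq_sum_of_support_subset _ (hGs a)]
    refine (Finset.abs_sum_le_sum_abs _ _).trans ?_
    refine (Finset.sum_le_card_nsmul _ _ _ (fun x _ => hGb a x)).trans ?_
    rw [nsmul_eq_mul]
    have h4 : (J a ∪ J (T.al a)).card ≤ 2 * (2 * 4 ^ r) := by
      have := Finset.card_union_le (J a) (J (T.al a))
      have h5 := hJc a
      have h6 := hJc (T.al a)
      omega
    have h5 : ((J a ∪ J (T.al a)).card * r : ℕ) ≤ (2 * (2 * 4 ^ r)) * r :=
      Nat.mul_le_mul_right _ h4
    exact_mod_cast h5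
  · intro v
    -- sums
    have hsum : ∀ x, ∑ a ∈ T.star v, G a x =
        (if x.1 = v then (1 : ℤ) else 0) - (if f x = v then 1 else 0) := by
      intro x
      simp only [G]
      rw [list_sum_count T (l x) v, hl3 x (fun w => if w = v then (1 : ℤ) else 0), h1, h3]
    rw [← finsum_sum_comm _ _ (fun a _ => hGf a)]
    rw [finsum_congr hsum]
    have hs1 : (support fun x : V × Bool => if x.1 = v then (1 : ℤ) else 0) ⊆
        (({(v, true), (v, false)} : Finset (V × Bool)) : Set (V × Bool)) := by
      intro x hx
      have hx' : x.1 = v := by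
        by_contra hc
        simp [hc] at hx
      obtain ⟨y, b⟩ := x
      simp only at hx'
      subst hx'
      cases b <;> simp
    have hs2 : (support fun x : V × Bool => if f x = v then (1 : ℤ) else 0).Subsingleton := by
      intro x hx y hy
      have hx' : f x = v := by
        by_contra hc
        simp [hc] at hx
      have hy' : f y = v := by
        by_contra hc
        simp [hc] at hy
      exact hf (hx'.trans hy'.symm)
    rw [finsum_sub_distrib ((Finset.finite_toSet _).subset hs1) hs2.finite]
    have e1 : (∑ᶠ x : V × Bool, if x.1 = v then (1 : ℤ) else 0) = 2 := by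
      rw [finsum_eq_sum_of_support_subset _ hs1]
      rw [Finset.sum_pair (by simp)]
      simp
    have e2 : (∑ᶠ x : V × Bool, if f x = v then (1 : ℤ) else 0) ≤ 1 := by
      by_cases hex : ∃ x, f x = v
      · obtain ⟨x0, hx0⟩ := hex
        rw [finsum_eq_single _ x0]
        · simp [hx0]
        · intro x hx
          rw [if_neg]
          intro hc
          exact hx (hf (hc.trans hx0.symm))
      · have : ∀ x : V × Bool, (if f x = v then (1 : ℤ) else 0) = 0 := by
          intro x
          rw [if_neg]
          intro hc
          exact hex ⟨x, hc⟩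
        rw [finsum_congr this, finsum_zero]
        norm_num
    linarith

end Pool.Agent.BS.H45
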