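import Pool.Agent.Helper47_BS.StmtsP

/-! # BS squad, module HALL -/

set_option autoImplicit false

namespace Pool.Agent.BS.H45

open Function Pool.Agent.BS

variable {D V : Type} (T : TMap D V)

/-! ### balls of darts -/

theorem ball_mono_succ {d e : D} {n : ℕ} (h : e ∈ T.ball d n) : e ∈ T.ball d (n + 1) :=
  ⟨e, h, Or.inl rfl⟩

theorem ball_mono {d e : D} {n m : ℕ} (hnm : n ≤ m) (h : e ∈ T.ball d n) : e ∈ T.ball d m := by
  induction hnm with
  | refl => exact h
  | step _ ih => exact ball_mono_succ T ih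

theorem ball_lam {d e : D} {n : ℕ} (h : e ∈ T.ball d n) : T.lam e ∈ T.ball d (n + 1) :=
  ⟨e, h, Or.inr (Or.inl rfl)⟩

theorem ball_lam_symm {d e : D} {n : ℕ} (h : e ∈ T.ball d n) : T.lam.symm e ∈ T.ball d (n + 1) :=
  ⟨e, h, Or.inr (Or.inr (Or.inl rfl))⟩

theorem ball_al {d e : D} {n : ℕ} (h : e ∈ T.ball d n) : T.al e ∈ T.ball d (n + 1) :=
  ⟨e, h, Or.inr (Or.inr (Or.inr rfl))⟩

theorem ball_lam_pow {d e : D} {n : ℕ} (h : e ∈ T.ball d n) (k : ℕ) :
    (T.lam ^ k) e ∈ T.ball d (n + k) := by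
  induction k with
  | zero => exact h
  | succ k ih =>
    rw [pow_succ']
    exact ball_lam T ih

theorem ball_trans {d e f : D} {n m : ℕ} (h : e ∈ T.ball d n) (h' : f ∈ T.ball e m) :
    f ∈ T.ball d (n + m) := by
  induction m generalizing f with
  | zero =>
    have : f = e := h'
    rw [this]; exact h
  | succ m ih =>
    obtain ⟨g, hg, hfg⟩ := h'
    exact ⟨g, ih hg, hfg⟩

theorem ball_symm {d e : D} {n : ℕ} (h : e ∈ T.ball d n) : d ∈ T.ball e n := by
  induction n generalizing e with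
  | zero =>
    have : e = d := h
    rw [this]; exact rfl
  | succ n ih =>
    obtain ⟨g, hg, hfg⟩ := h
    have h1 : d ∈ T.ball g n := ih hg
    have h2 : g ∈ T.ball e 1 := by
      refine ⟨e, rfl, ?_⟩
      rcases hfg with h | h | h | h
      · exact Or.inl h.symm
      · right; right; left
        rw [h, Equiv.symm_apply_apply]
      · right; left
        rw [h, Equiv.apply_symm_apply]
      · right; right; right
        rw [h, T.al_al]
    have h3 := ball_trans T h2 h1
    rwa [Nat.add_comm] at h3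

theorem lf_lam_pow' (n : ℕ) (d : D) : T.lf ((T.lam ^ n) d) = T.lf d := by
  induction n with
  | zero => rfl
  | succ n ih =>
    rw [pow_succ']
    change T.lf (T.lam ((T.lam ^ n) d)) = _
    rw [T.lf_lam, ih]

/-- the number of turns needed to go from a dart to another dart with the same left vertex -/
theorem exists_turn {Δ : ℕ} (hΔ : T.Deg Δ) {e e' : D} (h : T.lf e = T.lf e') :
    ∃ k : ℕ, k ≤ Δ ∧ (T.lam ^ k) e = e' := by
  classical
  have hex := T.cyc e e' h
  let k := Nat.find hex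
  have hk : (T.lam ^ k) e = e' := Nat.find_spec hex
  have hmin : ∀ m < k, (T.lam ^ m) e ≠ e' := fun m hm => Nat.find_min hex hm
  refine ⟨k, ?_, hk⟩
  have hinj : Set.InjOn (fun i : ℕ => (T.lam ^ i) e) (Finset.range (k + 1) : Set ℕ) := by
    have key : ∀ i j : ℕ, i < j → j ≤ k → (T.lam ^ i) e ≠ (T.lam ^ j) e := by
      intro i j hij hj heq
      refine hmin (i + (k - j)) (by omega) ?_
      rw [Nat.add_comm, pow_add, Equiv.Perm.mul_apply, heq, ← Equiv.Perm.mul_apply, ← pow_add,
        Nat.sub_add_cancel hj, hk]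
    intro i hi j hj hij
    simp only [Finset.coe_range, Set.mem_Iio] at hi hj
    rcases lt_trichotomy i j with h | h | h
    · exact absurd hij (key i j h (by omega))
    · exact h
    · exact absurd hij.symm (key j i h (by omega))
  have hsub : (Finset.range (k + 1)).image (fun i : ℕ => (T.lam ^ i) e) ⊆ T.star (T.lf e) := by
    intro d hd
    rw [Finset.mem_image] at hd
    obtain ⟨i, _, rfl⟩ := hd
    rw [T.mem_star, lf_lam_pow']
  have hcard := Finset.card_le_card hsub
  rw [Finset.card_image_of_injOn hinj, Finset.card_range] at hcard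
  have := hΔ (T.lf e)
  omega

theorem ball_same {Δ : ℕ} (hΔ : T.Deg Δ) {d e e' : D} {n : ℕ} (h : e ∈ T.ball d n)
    (he : T.lf e = T.lf e') : e' ∈ T.ball d (n + Δ) := by
  obtain ⟨k, hk, hke⟩ := exists_turn T hΔ he
  have h1 := ball_lam_pow T h k
  rw [hke] at h1
  exact ball_mono T (by omega) h1

/-! ### neighborhoods -/

open Classical in
/-- the closed neighborhood of a finite set -/
noncomputable def nb (S : Finset V) : Finset V := S ∪ (S.biUnion T.star).image T.rt

theorem mem_nb (S : Finset V) (y : V) :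
    y ∈ nb T S ↔ y ∈ S ∨ ∃ d, T.lf d ∈ S ∧ T.rt d = y := by
  classical
  simp only [nb, Finset.mem_union, Finset.mem_image, Finset.mem_biUnion, T.mem_star]
  constructor
  · rintro (h | ⟨d, ⟨v, hv, hd⟩, hy⟩)
    · exact Or.inl h
    · exact Or.inr ⟨d, by rw [hd]; exact hv, hy⟩
  · rintro (h | ⟨d, hd, hy⟩)
    · exact Or.inl h
    · exact Or.inr ⟨d, ⟨_, hd, rfl⟩, hy⟩

theorem nb_card {Δ : ℕ} {h : ℝ} (hΔ : T.Deg Δ) (hC : T.Cheeger h) (S : Finset V) :
    h * S.card ≤ Δ * ((nb T S).card - S.card : ℝ) := by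
  classical
  rcases S.eq_empty_or_nonempty with hS | hS
  · subst hS
    simp [nb]
  have h1 := hC S hS
  have hsub : S ⊆ nb T S := fun y hy => (mem_nb T S y).2 (Or.inl hy)
  have h2 : (T.bd S).card ≤ ((nb T S \ S).biUnion T.star).card := by
    refine Finset.card_le_card_of_injOn T.al ?_ (T.al.injective.injOn)
    intro d hd
    have hd' : d ∈ T.bd S := hd
    rw [TMap.bd, Finset.mem_filter, Finset.mem_biUnion] at hd'
    obtain ⟨⟨v, hv, hdv⟩, hr⟩ := hd'
    rw [T.mem_star] at hdv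
    simp only [Finset.coe_biUnion, Finset.coe_sdiff, Set.mem_sdiff, Finset.mem_coe, Set.mem_iUnion,
      exists_prop]
    refine ⟨T.rt d, ⟨(mem_nb T S _).2 (Or.inr ⟨d, by rw [hdv]; exact hv, rfl⟩), hr⟩, ?_⟩
    rw [T.mem_star]
    rfl
  have h3 : ((nb T S \ S).biUnion T.star).card ≤ (nb T S \ S).card * Δ :=
    Finset.card_biUnion_le_card_mul _ _ _ (fun v _ => hΔ v)
  have h4 : ((nb T S \ S).card : ℝ) = (nb T S).card - S.card := by
    rw [Finset.card_sdiff_of_subset hsub, Nat.cast_sub (Finset.card_le_card hsub)]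
  have h5 : ((T.bd S).card : ℝ) ≤ (nb T S \ S).card * Δ := by exact_mod_cast h2.trans h3
  rw [h4] at h5
  linarith [mul_comm ((nb T S).card - S.card : ℝ) (Δ : ℝ)]

theorem nb_iter_card {Δ : ℕ} {h : ℝ} (hΔ : T.Deg Δ) (hC : T.Cheeger h) (hp : 0 < Δ) (hh : 0 < h)
    (S : Finset V) (r : ℕ) : (1 + h / Δ) ^ r * S.card ≤ (((nb T)^[r] S).card : ℝ) := by
  induction r with
  | zero => simp
  | succ r ih =>
    rw [iterate_succ_apply', pow_succ']
    have h1 := nb_card T hΔ hC ((nb T)^[r] S)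
    have hΔ' : (0 : ℝ) < Δ := by exact_mod_cast hp
    have h2 : (1 + h / Δ) * (((nb T)^[r] S).card : ℝ) ≤ ((nb T ((nb T)^[r] S)).card : ℝ) := by
      have h3 : h / Δ * (((nb T)^[r] S).card : ℝ) ≤
          ((nb T ((nb T)^[r] S)).card - ((nb T)^[r] S).card : ℝ) := by
        rw [div_mul_eq_mul_div, div_le_iff₀ hΔ']
        linarith [mul_comm ((nb T ((nb T)^[r] S)).card - ((nb T)^[r] S).card : ℝ) (Δ : ℝ)]
      linarith
    have h4 : (0 : ℝ) ≤ 1 + h / Δ := by positivity
    calc (1 + h / Δ) * (1 + h / Δ) ^ r * (S.card : ℝ)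
        = (1 + h / Δ) * ((1 + h / Δ) ^ r * S.card) := by ring
      _ ≤ (1 + h / Δ) * (((nb T)^[r] S).card : ℝ) := mul_le_mul_of_nonneg_left ih h4
      _ ≤ _ := h2

theorem nb_biUnion [DecidableEq V] {α : Type} (s : Finset α) (t : α → Finset V) :
    nb T (s.biUnion t) = s.biUnion (fun a => nb T (t a)) := by
  ext y
  rw [mem_nb, Finset.mem_biUnion]
  simp only [Finset.mem_biUnion, mem_nb]
  constructor
  · rintro (⟨a, ha, hy⟩ | ⟨d, ⟨a, ha, hd⟩, hy⟩)
    · exact ⟨a, ha, Or.inl hy⟩
    · exact ⟨a, ha, Or.inr ⟨d, hd, hy⟩⟩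
  · rintro ⟨a, ha, hy | ⟨d, hd, hy⟩⟩
    · exact Or.inl ⟨a, ha, hy⟩
    · exact Or.inr ⟨d, ⟨a, ha, hd⟩, hy⟩

theorem nb_iter_biUnion [DecidableEq V] {α : Type} (s : Finset α) (t : α → Finset V) (r : ℕ) :
    (nb T)^[r] (s.biUnion t) = s.biUnion (fun a => (nb T)^[r] (t a)) := by
  induction r with
  | zero => rfl
  | succ r ih =>
    rw [iterate_succ_apply', ih, nb_biUnion]
    congr 1
    funext a
    rw [iterate_succ_apply']

theorem nb_iter_ball {Δ : ℕ} (hΔ : T.Deg Δ) (x : V) (r : ℕ) (y : V)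
    (hy : y ∈ (nb T)^[r] {x}) : ∃ d e : D, T.lf d = x ∧ e ∈ T.ball d (r * (Δ + 1)) ∧ T.lf e = y := by
  induction r generalizing y with
  | zero =>
    have hyx : y = x := by simpa using hy
    obtain ⟨d, hd⟩ := T.star_ne x
    rw [T.mem_star] at hd
    exact ⟨d, d, hd, by simp [TMap.ball], by rw [hyx, hd]⟩
  | succ r ih =>
    rw [iterate_succ_apply', mem_nb] at hy
    rcases hy with hy | ⟨d', hd', hy⟩
    · obtain ⟨d, e, h1, h2, h3⟩ := ih y hy
      exact ⟨d, e, h1, ball_mono T (by nlinarith) h2, h3⟩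
    · obtain ⟨d, e, h1, h2, h3⟩ := ih _ hd'
      refine ⟨d, T.al d', h1, ?_, by rw [← hy]; rfl⟩
      have h4 := ball_al T (ball_same T hΔ h2 h3)
      exact ball_mono T (by ring_nf; omega) h4

theorem hall : HallStmt := by
  classical
  intro D V T Δ h hΔ hh hC hV
  obtain ⟨v⟩ := hV
  have hp : 0 < Δ := by
    have h1 := hΔ v
    have h2 := Finset.card_pos.2 (T.star_ne v)
    omega
  have hΔ' : (0 : ℝ) < Δ := by exact_mod_cast hp
  have h1 : 1 < 1 + h / Δ := by
    have : 0 < h / Δ := by positivity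
    linarith
  obtain ⟨r, hr⟩ := pow_unbounded_of_one_lt 2 h1
  have hall := (Finset.all_card_le_biUnion_card_iff_exists_injective
    (fun x : V × Bool => (nb T)^[r] {x.1})).1 (by
      intro s
      have e1 : s.biUnion (fun x : V × Bool => (nb T)^[r] {x.1})
          = (nb T)^[r] (s.image Prod.fst) := by
        have e2 : s.image Prod.fst = s.biUnion (fun x : V × Bool => {x.1}) := by
          ext y
          simp [eq_comm]
        rw [e2, nb_iter_biUnion]
      rw [e1]
      have h2 := nb_iter_card T hΔ hC hp hh (s.image Prod.fst) r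
      have h3 : s.card ≤ 2 * (s.image Prod.fst).card := by
        have h4 : s ⊆ (s.image Prod.fst) ×ˢ (Finset.univ : Finset Bool) := by
          intro x hx
          rw [Finset.mem_product]
          exact ⟨Finset.mem_image_of_mem _ hx, Finset.mem_univ _⟩
        have h5 := Finset.card_le_card h4
        rw [Finset.card_product] at h5
        simp only [Finset.card_univ, Fintype.card_bool] at h5
        omega
      have h6 : (2 : ℝ) * (s.image Prod.fst).card ≤ (1 + h / Δ) ^ r * (s.image Prod.fst).card :=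
        mul_le_mul_of_nonneg_right hr.le (Nat.cast_nonneg _)
      have h7 : ((2 * (s.image Prod.fst).card : ℕ) : ℝ) ≤
          (((nb T)^[r] (s.image Prod.fst)).card : ℝ) := by
        push_cast
        linarith
      have h8 : 2 * (s.image Prod.fst).card ≤ ((nb T)^[r] (s.image Prod.fst)).card := by
        exact_mod_cast h7
      omega)
  obtain ⟨f, hf, hf'⟩ := hall
  refine ⟨r * (Δ + 1), f, hf, ?_⟩
  intro x
  obtain ⟨d, e, h2, h3, h4⟩ := nb_iter_ball T hΔ x.1 r (f x) (hf' x)
  exact ⟨d, e, h2, h3, h4⟩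

end Pool.Agent.BS.H45
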